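import Pool.Agent.H368.NS.TransferM
import Pool.Agent.H368.NV.BGModel
import Pool.Agent.H368.NV.KillModel

/-!
# The coarse geometric `ℓ^p`-Novikov conjecture is false for all `1 < p < ∞`

There is a discrete metric space `Γ` of bounded geometry (a coarse disjoint union of finite graphs of
degree at most `64`) such that for all `1 < p < ∞` the degree one part
`lim_d K₁(B_L^p(P_d(Γ))) → lim_d K₁(B^p(P_d(Γ)))` of the index map maps an element which is not zero to zero.
All objects are defined in `Pool.Agent.H368.NS.DefsM`, `Pool.Agent.H368.NS.Defs` and the files imported there.

* `NS.Ell p I`, `NS.Op p I`, `NS.Path p I`: the spaces `ℓ^p(I)`, `B(ℓ^p(I))`, and the bounded continuous functions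
  from `[0, ∞)` to `B(ℓ^p(I))`. For a dense set `Z` of a space, `ℓ^p(Z × ℕ) = ℓ^p(Z, ℓ^p(ℕ))`.
* `block T x y`: the matrix entry `T(x, y)`. `LocCpt`, `prop`, `roe`, `loc`, `evalZero`: local compactness, propagation,
  the algebras `B^p` and `B_L^p` and the evaluation at `0`, as on the problem page.
* `rips Γ d`: the simplices of `P_d(Γ)`. `Pt K`: the geometric realization of a simplicial complex `K`, with the
  `ℓ¹` path metric, which is the `ℓ¹` metric for points of a common simplex, and `∞` for points of different components.
  `rat K`: its countable dense subset of the points with rational coordinates.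
* `K1 A`: the set of path components of the invertible matrices over `A` (of all sizes, stabilised by adding
  ones on the diagonal) which are congruent to `1` modulo `A`. They are written as `1 + a`, where `a` is
  quasi-invertible (`QInv`); `K1.zero` is the class of `1`.
* `LimL`, `LimR`, `indexMap`: the direct limits over `d ∈ [0, ∞)` and the index map. The maps are induced by the inclusions
  `P_d(Γ) ⊆ P_{d'}(Γ)`.

Idea of the proof. The `n`-th graph contains a circle of length `N` (the core). The graphs carry cocycles with
values in `ℤ` which vanish on all short closed walks and detect the core. So the classes of the cores define an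
element of `lim_d K₁(B_L^p(P_d(Γ)))` which is not zero (the winding number along the core, computed in the cyclic
covers, is an obstruction). On the other hand the graphs contain subsets `H × ℤ/N × {0, …, L}` such that the averaging
operator `P` over `H` and its product with the shift `T` in the direction of `ℤ/N` are in the closure of the operators
of finite propagation, where the fibres `H` have bounded diameter at the level `L`, and `ℤ/N` has bounded diameter at the
level `0`. The class of the core is the class of `P T` at the level `L`. The shift of the levels shows that it is
also the class of `P T` at the level `0`, which is trivial as `T` is there a product of two involutions of finite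
propagation.
-/

set_option autoImplicit false

namespace Pool.Agent.Results.MP_56b91c_al.IndexNotInjective

open Pool.Agent.H368.NV Pool.Agent.H368
open scoped ENNReal

theorem result :
    ∃ (Γ : Type) (_ : MetricSpace Γ) (hΓ : BoundedGeometry Γ),
      (∀ x y : Γ, x ≠ y → 1 ≤ dist x y) ∧
      ∀ (p : ℝ≥0∞) [Fact (1 ≤ p)] [Fact (p ≠ ∞)], 1 < p →
        ∃ x : NSM.LimL p hΓ, x ≠ NSM.zeroL p hΓ ∧ NSM.indexMap p hΓ x = NSM.zeroR p hΓ := by
  refine ⟨Sp BG.G, inferInstance,
    fun R _ => boundedGeometry_of_degree BG.G 64 BG.degree_bg R, ?_, ?_⟩
  · intro x y hxy
    change (1 : ℝ) ≤ ((nearDist x y : ℕ) : ℝ)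
    have h1 : nearDist x y ≠ 0 := by
      intro h0
      exact hxy ((near_zero x y).1 ((nearDist_le_iff x y 0).1 h0.le))
    exact_mod_cast Nat.one_le_iff_ne_zero.2 h1
  · intro p _ _ hp
    obtain ⟨m⟩ := BG.exists_model_bg p hp
    exact NSM.index_of p _ (main_rips BG.flat_bg (kill_model m) _)

end Pool.Agent.Results.MP_56b91c_al.IndexNotInjective
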